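import Pool.Agent.U946.TR.Stm

/-!
# Project TR, package RED: increasing unions of finite Borel equivalence relations reduce to `E_0`
-/

set_option autoImplicit false
set_option linter.unusedSectionVars false

namespace Pool.Agent.U2.TR

open Set

open Classical in
/-- the finite set of the values of `r k` on the class of `x` -/
noncomputable def G {X Q : Type} (r : ℕ → X → Q) (w : ℕ → X → X) (F : ℕ → X → X → Prop)
    (N : ℕ → ℕ) (j k : ℕ) (x : X) : Finset Q :=
  ((Finset.range (N j)).filter (fun i => F j x (w i x))).image (fun i => r k (w i x))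

/-- `r k` is injective on the class of `x`, and `j ≤ k` -/
def P {X Q : Type} (r : ℕ → X → Q) (F : ℕ → X → X → Prop) (j k : ℕ) (x : X) : Prop :=
  j ≤ k ∧ ∀ z z', F j x z → F j x z' → r k z = r k z' → z = z'

/-- the least such `k` -/
noncomputable def K {X Q : Type} (r : ℕ → X → Q) (F : ℕ → X → X → Prop) (j : ℕ) (x : X) : ℕ :=
  sInf {k | P r F j k x}

section
variable {X Q : Type} [MeasurableSpace X] [Countable Q] {r : ℕ → X → Q}
  {w : ℕ → X → X} {F : ℕ → X → X → Prop} {N : ℕ → ℕ}

lemma mem_G (hN : ∀ j x y, F j x y → ∃ i < N j, w i x = y) (j k : ℕ) (x : X) (q : Q) :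
    q ∈ G r w F N j k x ↔ ∃ y, F j x y ∧ r k y = q := by
  unfold G
  simp only [Finset.mem_image, Finset.mem_filter, Finset.mem_range]
  constructor
  · rintro ⟨i, ⟨_, hi⟩, h⟩
    exact ⟨w i x, hi, h⟩
  · rintro ⟨y, hy, h⟩
    obtain ⟨i, hi, rfl⟩ := hN j x y hy
    exact ⟨i, ⟨hi, hy⟩, h⟩

lemma exists_P (hmono : ∀ x y k, r k x = r k y → ∀ l ≤ k, r l x = r l y)
    (hsep : ∀ x y, (∀ k, r k x = r k y) → x = y)
    (hN : ∀ j x y, F j x y → ∃ i < N j, w i x = y) (j : ℕ) (x : X) : ∃ k, P r F j k x := by
  have h1 : ∀ i i' : ℕ, ∃ k, ∀ k' ≥ k, r k' (w i x) = r k' (w i' x) → w i x = w i' x := by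
    intro i i'
    by_cases h : w i x = w i' x
    · exact ⟨0, fun _ _ _ => h⟩
    · have : ∃ k, r k (w i x) ≠ r k (w i' x) := by
        by_contra hcon
        push Not at hcon
        exact h (hsep _ _ hcon)
      obtain ⟨k, hk⟩ := this
      exact ⟨k, fun k' hk' he => absurd (hmono _ _ k' he k hk') hk⟩
  choose κ hκ using h1
  refine ⟨max j ((Finset.range (N j) ×ˢ Finset.range (N j)).sup fun p => κ p.1 p.2),
    le_max_left _ _, ?_⟩
  intro z z' hz hz' he
  obtain ⟨i, hi, rfl⟩ := hN j x z hz
  obtain ⟨i', hi', rfl⟩ := hN j x z' hz'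
  refine hκ i i' _ ?_ he
  refine le_trans ?_ (le_max_right _ _)
  have hmem : (i, i') ∈ Finset.range (N j) ×ˢ Finset.range (N j) :=
    Finset.mk_mem_product (Finset.mem_range.2 hi) (Finset.mem_range.2 hi')
  exact Finset.le_sup (f := fun p : ℕ × ℕ => κ p.1 p.2) hmem

lemma K_spec (h : ∀ j x, ∃ k, P r F j k x) (j : ℕ) (x : X) : P r F j (K r F j x) x :=
  Nat.sInf_mem (s := {k | P r F j k x}) (h j x)

lemma K_le {j k : ℕ} {x : X} (h : P r F j k x) : K r F j x ≤ k := Nat.sInf_le h

lemma meas_comp (hr : ∀ k q, MeasurableSet {x | r k x = q}) (hw : ∀ i, Measurable (w i))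
    (k i : ℕ) (q : Q) : MeasurableSet {x | r k (w i x) = q} := (hw i) (hr k q)

lemma meas_eq (hr : ∀ k q, MeasurableSet {x | r k x = q}) (hw : ∀ i, Measurable (w i))
    (k i i' : ℕ) : MeasurableSet {x | r k (w i x) = r k (w i' x)} := by
  have : {x | r k (w i x) = r k (w i' x)} =
      ⋃ q : Q, {x | r k (w i x) = q} ∩ {x | r k (w i' x) = q} := by
    ext x
    simp only [mem_iUnion, mem_inter_iff]
    constructor
    · intro h
      exact ⟨r k (w i' x), h, rfl⟩
    · rintro ⟨q, h1, h2⟩
      exact Eq.trans h1 (Eq.symm h2)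
  rw [this]
  exact MeasurableSet.iUnion fun q => (meas_comp hr hw k i q).inter (meas_comp hr hw k i' q)

lemma meas_eq' (hr : ∀ k q, MeasurableSet {x | r k x = q}) (hw : ∀ i, Measurable (w i))
    (hsep : ∀ x y, (∀ k, r k x = r k y) → x = y) (i i' : ℕ) :
    MeasurableSet {x | w i x = w i' x} := by
  have : {x | w i x = w i' x} = ⋂ k : ℕ, {x | r k (w i x) = r k (w i' x)} := by
    ext x
    simp only [mem_iInter]
    constructor
    · intro h k
      have h' : w i x = w i' x := h
      show r k (w i x) = r k (w i' x)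
      rw [h']
    · intro h
      exact hsep _ _ h
  rw [this]
  exact MeasurableSet.iInter fun k => meas_eq hr hw k i i'

lemma meas_P (hr : ∀ k q, MeasurableSet {x | r k x = q}) (hw : ∀ i, Measurable (w i))
    (hsep : ∀ x y, (∀ k, r k x = r k y) → x = y)
    (hF : ∀ j i, MeasurableSet {x | F j x (w i x)})
    (hN : ∀ j x y, F j x y → ∃ i < N j, w i x = y) (j k : ℕ) :
    MeasurableSet {x | P r F j k x} := by
  by_cases hjk : j ≤ k
  · have : {x | P r F j k x} = ⋂ i : ℕ, ⋂ i' : ℕ, ({x | F j x (w i x)}ᶜ ∪ ({x | F j x (w i' x)}ᶜ ∪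
        ({x | r k (w i x) = r k (w i' x)}ᶜ ∪ {x | w i x = w i' x}))) := by
      ext x
      simp only [mem_iInter, mem_union, mem_compl_iff]
      constructor
      · rintro ⟨-, h⟩ i i'
        by_cases h1 : F j x (w i x)
        · by_cases h2 : F j x (w i' x)
          · by_cases h3 : r k (w i x) = r k (w i' x)
            · exact Or.inr (Or.inr (Or.inr (h _ _ h1 h2 h3)))
            · exact Or.inr (Or.inr (Or.inl h3))
          · exact Or.inr (Or.inl h2)
        · exact Or.inl h1
      · intro h
        refine ⟨hjk, fun z z' hz hz' he => ?_⟩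
        obtain ⟨i, hi, rfl⟩ := hN j x z hz
        obtain ⟨i', hi', rfl⟩ := hN j x z' hz'
        rcases h i i' with h | h | h | h
        · exact absurd hz h
        · exact absurd hz' h
        · exact absurd he h
        · exact h
    rw [this]
    exact MeasurableSet.iInter fun i => MeasurableSet.iInter fun i' => (hF j i).compl.union
      ((hF j i').compl.union ((meas_eq hr hw k i i').compl.union (meas_eq' hr hw hsep i i')))
  · have : {x | P r F j k x} = ∅ := by
      ext x
      simp only [mem_empty_iff_false, iff_false]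
      rintro ⟨h, -⟩
      exact hjk h
    rw [this]
    exact MeasurableSet.empty

lemma meas_K (hr : ∀ k q, MeasurableSet {x | r k x = q}) (hw : ∀ i, Measurable (w i))
    (hsep : ∀ x y, (∀ k, r k x = r k y) → x = y)
    (hF : ∀ j i, MeasurableSet {x | F j x (w i x)})
    (hN : ∀ j x y, F j x y → ∃ i < N j, w i x = y) (h : ∀ j x, ∃ k, P r F j k x) (j k : ℕ) :
    MeasurableSet {x | K r F j x = k} := by
  have : {x | K r F j x = k} = {x | P r F j k x} ∩ ⋂ l : ℕ, ⋂ _ : l < k, {x | P r F j l x}ᶜ := by
    ext x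
    simp only [mem_inter_iff, mem_iInter, mem_compl_iff]
    constructor
    · intro hk
      have hk' : K r F j x = k := hk
      subst hk'
      refine ⟨K_spec h j x, fun l hl hP => ?_⟩
      exact absurd (K_le hP) (not_le.2 hl)
    · rintro ⟨h1, h2⟩
      refine le_antisymm (K_le h1) ?_
      by_contra hcon
      exact h2 _ (not_le.1 hcon) (K_spec h j x)
  rw [this]
  exact (meas_P hr hw hsep hF hN j k).inter (MeasurableSet.iInter fun l => MeasurableSet.iInter
    fun _ => (meas_P hr hw hsep hF hN j l).compl)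

lemma meas_G (hr : ∀ k q, MeasurableSet {x | r k x = q}) (hw : ∀ i, Measurable (w i))
    (hF : ∀ j i, MeasurableSet {x | F j x (w i x)})
    (hN : ∀ j x y, F j x y → ∃ i < N j, w i x = y) (j k : ℕ) (A : Finset Q) :
    MeasurableSet {x | G r w F N j k x = A} := by
  have hq : ∀ q : Q, MeasurableSet {x | q ∈ G r w F N j k x} := by
    intro q
    have : {x | q ∈ G r w F N j k x} = ⋃ i : ℕ, {x | F j x (w i x)} ∩ {x | r k (w i x) = q} := by
      ext x
      simp only [mem_iUnion, mem_inter_iff]
      constructor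
      · intro hx
        obtain ⟨y, hy, hy'⟩ := (mem_G hN j k x q).1 hx
        obtain ⟨i, _, rfl⟩ := hN j x y hy
        exact ⟨i, hy, hy'⟩
      · rintro ⟨i, h1, h2⟩
        exact (mem_G hN j k x q).2 ⟨w i x, h1, h2⟩
    rw [this]
    exact MeasurableSet.iUnion fun i => (hF j i).inter (meas_comp hr hw k i q)
  have : {x | G r w F N j k x = A} = ⋂ q : Q, {x | q ∈ G r w F N j k x ↔ q ∈ A} := by
    ext x
    simp only [mem_iInter]
    constructor
    · intro h q
      have h' : G r w F N j k x = A := h
      show q ∈ G r w F N j k x ↔ q ∈ A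
      rw [h']
    · intro h
      exact Finset.ext h
  rw [this]
  refine MeasurableSet.iInter fun q => ?_
  by_cases hA : q ∈ A
  · have : {x | q ∈ G r w F N j k x ↔ q ∈ A} = {x | q ∈ G r w F N j k x} := by
      ext x; exact ⟨fun h => h.2 hA, fun h => ⟨fun _ => hA, fun _ => h⟩⟩
    rw [this]; exact hq q
  · have : {x | q ∈ G r w F N j k x ↔ q ∈ A} = {x | q ∈ G r w F N j k x}ᶜ := by
      ext x; exact ⟨fun h h' => hA (h.1 h'), fun h => ⟨fun h' => absurd h' h, fun h' => absurd h' hA⟩⟩
    rw [this]; exact (hq q).compl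

end

theorem t_RED : Pool.Agent.U946.TR.S_RED := by
  intro X Q _ _ r hr hmono hsep w hw F hE hinc hF N hN
  classical
  have hex : ∀ j x, ∃ k, P r F j k x := exists_P hmono hsep hN
  have hinc' : ∀ j j' x y, j ≤ j' → F j x y → F j' x y := by
    intro j j' x y hjj
    induction hjj with
    | refl => exact fun h => h
    | step _ ih => exact fun h => hinc _ _ _ (ih h)
  -- the code
  let c : X → ℕ → ℕ × Finset Q × Finset Q := fun x j =>
    (K r F (j + 1) x, G r w F N (j + 1) (K r F (j + 1) x) x, G r w F N j (K r F (j + 1) x) x)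
  have hcm : ∀ j v, MeasurableSet {x | c x j = v} := by
    rintro j ⟨k, A, B⟩
    have : {x | c x j = (k, A, B)} = {x | K r F (j + 1) x = k} ∩
        ({x | G r w F N (j + 1) k x = A} ∩ {x | G r w F N j k x = B}) := by
      ext x
      constructor
      · intro h
        have h' : c x j = (k, A, B) := h
        simp only [c, Prod.mk.injEq] at h'
        obtain ⟨h1, h2, h3⟩ := h'
        subst h1
        exact ⟨rfl, h2, h3⟩
      · rintro ⟨h1, h2, h3⟩
        have h1' : K r F (j + 1) x = k := h1
        show c x j = (k, A, B)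
        simp only [c, Prod.mk.injEq]
        rw [h1']
        exact ⟨rfl, h2, h3⟩
    rw [this]
    exact (meas_K hr hw hsep hF hN hex _ _).inter
      ((meas_G hr hw hF hN _ _ _).inter (meas_G hr hw hF hN _ _ _))
  obtain ⟨e, he⟩ := exists_injective_nat (ℕ × Finset Q × Finset Q)
  -- classes
  have hcls : ∀ m x y, F m x y → ∀ j, m ≤ j → ∀ z, F j x z ↔ F j y z := by
    intro m x y hxy j hj z
    have h1 := hinc' m j x y hj hxy
    exact ⟨fun h => (hE j).trans ((hE j).symm h1) h, fun h => (hE j).trans h1 h⟩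
  have hcode : ∀ m x y, F m x y → ∀ j, m ≤ j → c x j = c y j := by
    intro m x y hxy j hj
    have hP : ∀ k, P r F (j + 1) k x ↔ P r F (j + 1) k y := by
      intro k
      unfold P
      simp only [hcls m x y hxy (j + 1) (by omega)]
    have hK : K r F (j + 1) x = K r F (j + 1) y := by
      unfold K
      congr 1
      ext k
      exact hP k
    have hG : ∀ l, m ≤ l → ∀ k, G r w F N l k x = G r w F N l k y := by
      intro l hl k
      ext q
      rw [mem_G hN, mem_G hN]
      simp only [hcls m x y hxy l hl]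
    simp only [c]
    rw [hK, hG (j + 1) (by omega), hG j hj]
  have hback : ∀ m x y, (∀ j, m ≤ j → c x j = c y j) → F m y x := by
    intro m x y h
    -- the point of the class of `y` with the same approximation
    have h1 : ∀ j, m ≤ j → ∃ z, F j y z ∧ r (K r F (j + 1) y) z = r (K r F (j + 1) y) x := by
      intro j hj
      have hc := h j hj
      simp only [c, Prod.mk.injEq] at hc
      obtain ⟨e1, -, e3⟩ := hc
      rw [e1] at e3
      have : r (K r F (j + 1) y) x ∈ G r w F N j (K r F (j + 1) y) x :=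
        (mem_G hN _ _ _ _).2 ⟨x, (hE j).refl x, rfl⟩
      rw [e3] at this
      obtain ⟨z, hz, hz'⟩ := (mem_G hN _ _ _ _).1 this
      exact ⟨z, hz, hz'⟩
    have : Nonempty X := ⟨x⟩
    choose! Z hZ1 hZ2 using h1
    have hKm : ∀ j, K r F (j + 1) y ≤ K r F (j + 2) y := by
      intro j
      have h2 := K_spec hex (j + 2) y
      apply K_le
      exact ⟨by have := h2.1; omega, fun z z' hz hz' => h2.2 z z' (hinc _ _ _ hz) (hinc _ _ _ hz')⟩
    have hstep : ∀ j, m ≤ j → Z (j + 1) = Z j := by
      intro j hj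
      have h2 := K_spec hex (j + 1) y
      refine h2.2 _ _ (hZ1 (j + 1) (by omega)) (hinc _ _ _ (hZ1 j hj)) ?_
      rw [hZ2 j hj]
      exact hmono _ _ _ (hZ2 (j + 1) (by omega)) _ (hKm j)
    have hconst : ∀ j, m ≤ j → Z j = Z m := by
      intro j hj
      induction hj with
      | refl => rfl
      | step hj ih => rw [← ih]; exact hstep _ hj
    have hzx : Z m = x := by
      apply hsep
      intro l
      have h3 : r (K r F (m + l + 1) y) (Z m) = r (K r F (m + l + 1) y) x := by
        rw [← hconst (m + l) (by omega)]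
        exact hZ2 (m + l) (by omega)
      refine hmono _ _ _ h3 l ?_
      have := (K_spec hex (m + l + 1) y).1
      omega
    rw [← hzx]
    exact hZ1 m le_rfl
  refine ⟨fun x n => decide (e (c x (Nat.unpair n).1) = (Nat.unpair n).2), ?_, ?_⟩
  · rw [measurable_pi_iff]
    intro n
    refine measurable_to_bool ?_
    have : (fun x => decide (e (c x (Nat.unpair n).1) = (Nat.unpair n).2)) ⁻¹' {true} =
        ⋃ v : {v : ℕ × Finset Q × Finset Q // e v = (Nat.unpair n).2},
          {x | c x (Nat.unpair n).1 = v.1} := by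
      ext x
      simp only [mem_preimage, mem_singleton_iff, decide_eq_true_eq, mem_iUnion]
      constructor
      · intro h
        exact ⟨⟨_, h⟩, rfl⟩
      · rintro ⟨⟨v, hv⟩, h⟩
        have h' : c x (Nat.unpair n).1 = v := h
        rw [h', hv]
    rw [this]
    exact MeasurableSet.iUnion fun v => hcm _ _
  · intro x y
    constructor
    · rintro ⟨m, hm⟩
      refine ⟨(Finset.range m).sup (fun j => Nat.pair j (e (c x j)) + Nat.pair j (e (c y j)) + 1),
        fun n hn => ?_⟩
      by_cases hj : m ≤ (Nat.unpair n).1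
      · simp only
        rw [hcode m x y hm _ hj]
      · have h1 : Nat.pair (Nat.unpair n).1 (e (c x (Nat.unpair n).1)) +
            Nat.pair (Nat.unpair n).1 (e (c y (Nat.unpair n).1)) + 1 ≤ n := by
          refine le_trans ?_ hn
          exact Finset.le_sup (f := fun j => Nat.pair j (e (c x j)) + Nat.pair j (e (c y j)) + 1)
            (Finset.mem_range.2 (not_le.1 hj))
        have h2 : ∀ v : ℕ, v = (Nat.unpair n).2 → Nat.pair (Nat.unpair n).1 v = n := by
          rintro v rfl
          exact Nat.pair_unpair n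
        have h3 : ¬ e (c x (Nat.unpair n).1) = (Nat.unpair n).2 := by
          intro h
          have := h2 _ h
          omega
        have h4 : ¬ e (c y (Nat.unpair n).1) = (Nat.unpair n).2 := by
          intro h
          have := h2 _ h
          omega
        simp only [h3, h4]
    · rintro ⟨n₀, hn⟩
      refine ⟨n₀, ?_⟩
      refine (hE n₀).symm (hback n₀ x y fun j hj => ?_)
      have h1 := hn (Nat.pair j (e (c x j))) (hj.trans (Nat.left_le_pair _ _))
      simp only [Nat.unpair_pair] at h1
      have h2 : e (c y j) = e (c x j) := by simpa using h1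
      exact (he h2).symm

end Pool.Agent.U2.TR
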